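import Pool.Agent.W21.RV.Defs

/-!
Project RV, part SQ: numbers `p` for which `a - p` is divisible by the square of a prime of
medium size.
-/

set_option autoImplicit false

namespace Pool.Agent.W15.RV

open Finset

/-- a residue class -/
theorem cls {N : ℕ} (A : Finset ℕ) (hA : ∀ p ∈ A, 1 ≤ p ∧ p ≤ N) (a : ℤ) (d : ℕ) :
    (((A.filter (fun p : ℕ => (d : ℤ) ∣ a - (p : ℤ))).card : ℕ) : ℝ) ≤ (N : ℝ) / d + 1 := by
  have h1 : (A.filter (fun p : ℕ => (d : ℤ) ∣ a - (p : ℤ))).card ≤ (range (N / d + 1)).card := by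
    apply Finset.card_le_card_of_injOn (fun p => p / d)
    · intro p hp
      have hp' := (mem_filter.1 (Finset.mem_coe.1 hp)).1
      rw [Finset.mem_coe, Finset.mem_range]
      exact Nat.lt_succ_of_le (Nat.div_le_div_right (hA p hp').2)
    · intro p hp p' hp' he
      have e1 := (mem_filter.1 (Finset.mem_coe.1 hp)).2
      have e2 := (mem_filter.1 (Finset.mem_coe.1 hp')).2
      simp only at he
      have e3 : (d : ℤ) ∣ (p : ℤ) - (p' : ℤ) := by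
        have := dvd_sub e2 e1
        have e : a - (p' : ℤ) - (a - (p : ℤ)) = (p : ℤ) - (p' : ℤ) := by ring
        rwa [e] at this
      have e4 : p' % d = p % d := (Nat.modEq_iff_dvd (a := p') (b := p)).mpr e3
      rw [← Nat.div_add_mod p d, ← Nat.div_add_mod p' d, he, e4]
  rw [Finset.card_range] at h1
  have h2 : (((A.filter (fun p : ℕ => (d : ℤ) ∣ a - (p : ℤ))).card : ℕ) : ℝ) ≤
      ((N / d : ℕ) : ℝ) + 1 := by exact_mod_cast h1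
  have h3 : ((N / d : ℕ) : ℝ) ≤ (N : ℝ) / d := Nat.cast_div_le
  linarith

theorem SQ : Pool.Agent.W21.RV.St_SQ := by
  classical
  intro N hN A hA a
  have hN1 : (1 : ℝ) ≤ N := by exact_mod_cast (by omega : 1 ≤ N)
  have hN0 : (0 : ℝ) < N := by linarith
  have hy1 : (1 : ℝ) ≤ (N : ℝ) ^ (1 / 8 : ℝ) := Real.one_le_rpow hN1 (by norm_num)
  obtain ⟨k, hk⟩ : ∃ k : ℕ, k + 1 = ⌈(N : ℝ) ^ (1 / 8 : ℝ)⌉₊ := by
    have : 0 < ⌈(N : ℝ) ^ (1 / 8 : ℝ)⌉₊ := Nat.ceil_pos.2 (by linarith)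
    exact ⟨⌈(N : ℝ) ^ (1 / 8 : ℝ)⌉₊ - 1, by omega⟩
  obtain ⟨T, hT⟩ : ∃ T : ℕ, T = ⌈(N : ℝ) ^ (2 / 5 : ℝ)⌉₊ := ⟨_, rfl⟩
  have hsub : A.filter (fun p : ℕ => ∃ q : ℕ, q.Prime ∧ (N : ℝ) ^ (1 / 8 : ℝ) ≤ q ∧
      (q : ℝ) < (N : ℝ) ^ (2 / 5 : ℝ) ∧ q ^ 2 ∣ (a - (p : ℤ)).natAbs) ⊆
      (Ioo k T).biUnion (fun q => A.filter (fun p : ℕ => ((q ^ 2 : ℕ) : ℤ) ∣ a - (p : ℤ))) := by
    intro p hp
    rw [mem_filter] at hp
    obtain ⟨hpA, q, hq, hqN, hqT, hqd⟩ := hp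
    rw [mem_biUnion]
    refine ⟨q, ?_, ?_⟩
    · rw [mem_Ioo]
      constructor
      · have : ⌈(N : ℝ) ^ (1 / 8 : ℝ)⌉₊ ≤ q := Nat.ceil_le.2 hqN
        omega
      · rw [hT]
        exact Nat.lt_ceil.2 hqT
    · rw [mem_filter]
      exact ⟨hpA, Int.natCast_dvd.2 hqd⟩
  have h1 : ((A.filter (fun p : ℕ => ∃ q : ℕ, q.Prime ∧ (N : ℝ) ^ (1 / 8 : ℝ) ≤ q ∧
      (q : ℝ) < (N : ℝ) ^ (2 / 5 : ℝ) ∧ q ^ 2 ∣ (a - (p : ℤ)).natAbs)).card : ℝ) ≤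
      ∑ q ∈ Ioo k T, (((A.filter (fun p : ℕ => ((q ^ 2 : ℕ) : ℤ) ∣ a - (p : ℤ))).card : ℕ) : ℝ) := by
    have h2 := (Finset.card_le_card hsub).trans Finset.card_biUnion_le
    exact_mod_cast h2
  have h4 : ∑ q ∈ Ioo k T, (((A.filter (fun p : ℕ => ((q ^ 2 : ℕ) : ℤ) ∣ a - (p : ℤ))).card : ℕ) : ℝ)
      ≤ N * ∑ q ∈ Ioo k T, ((q : ℝ) ^ 2)⁻¹ + (N : ℝ) ^ (2 / 5 : ℝ) := by
    have h5 : ∑ q ∈ Ioo k T,
        (((A.filter (fun p : ℕ => ((q ^ 2 : ℕ) : ℤ) ∣ a - (p : ℤ))).card : ℕ) : ℝ) ≤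
        ∑ q ∈ Ioo k T, ((N : ℝ) * ((q : ℝ) ^ 2)⁻¹ + 1) := by
      apply Finset.sum_le_sum
      intro q _
      have h6 := cls A hA a (q ^ 2)
      refine h6.trans (le_of_eq ?_)
      push_cast
      rw [div_eq_mul_inv]
    refine h5.trans ?_
    rw [Finset.sum_add_distrib, ← Finset.mul_sum]
    have h7 : ∑ q ∈ Ioo k T, (1 : ℝ) ≤ (N : ℝ) ^ (2 / 5 : ℝ) := by
      rw [Finset.sum_const, Nat.card_Ioo, nsmul_eq_mul, mul_one]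
      have h8 : (T : ℝ) < (N : ℝ) ^ (2 / 5 : ℝ) + 1 := by
        rw [hT]
        exact Nat.ceil_lt_add_one (by positivity)
      have h9 : 1 ≤ T := by
        rw [hT]
        exact Nat.ceil_pos.2 (by positivity)
      have h10 : T - k - 1 ≤ T - 1 := by omega
      have h11 : ((T - k - 1 : ℕ) : ℝ) ≤ ((T - 1 : ℕ) : ℝ) := by exact_mod_cast h10
      rw [Nat.cast_sub h9] at h11
      push_cast at h11
      linarith
    linarith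
  have h6 := sum_Ioo_inv_sq_le (α := ℝ) k T
  have h7 : (2 : ℝ) / (k + 1) ≤ 2 / (N : ℝ) ^ (1 / 8 : ℝ) := by
    apply div_le_div_of_nonneg_left (by norm_num) (by linarith)
    have h8 := Nat.le_ceil ((N : ℝ) ^ (1 / 8 : ℝ))
    rw [← hk] at h8
    push_cast at h8
    exact h8
  have h9 : (N : ℝ) / (N : ℝ) ^ (1 / 8 : ℝ) = (N : ℝ) ^ (7 / 8 : ℝ) := by
    rw [div_eq_iff (by positivity), ← Real.rpow_add hN0]
    norm_num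
  have h10 : (N : ℝ) ^ (2 / 5 : ℝ) ≤ (N : ℝ) ^ (7 / 8 : ℝ) :=
    Real.rpow_le_rpow_of_exponent_le hN1 (by norm_num)
  have h11 : (0 : ℝ) ≤ (N : ℝ) ^ (7 / 8 : ℝ) := by positivity
  have h12 : (N : ℝ) * ∑ q ∈ Ioo k T, ((q : ℝ) ^ 2)⁻¹ ≤ 2 * (N : ℝ) ^ (7 / 8 : ℝ) := by
    calc (N : ℝ) * ∑ q ∈ Ioo k T, ((q : ℝ) ^ 2)⁻¹
        ≤ N * (2 / (N : ℝ) ^ (1 / 8 : ℝ)) := mul_le_mul_of_nonneg_left (h6.trans h7) hN0.le
      _ = 2 * ((N : ℝ) / (N : ℝ) ^ (1 / 8 : ℝ)) := by ring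
      _ = 2 * (N : ℝ) ^ (7 / 8 : ℝ) := by rw [h9]
  linarith [h1.trans h4]

end Pool.Agent.W15.RV
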